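import Mathlib

set_option autoImplicit false

/-!
# Absolutely homogeneous edge-coloured graphs with a countable palette

An absolutely homogeneous graph with edge-colouring (GEC) whose palette is countable is countable
or has at least `2^ℵ₀` vertices.  So if the continuum hypothesis fails, there is no absolutely
homogeneous GEC with palette of size `ℵ₀` and `ℵ₁` vertices.

Proof.  There is no infinite monochromatic clique `Q`: enlarge `Q` to a maximal one and take an
injection of it onto a proper subset of it; an automorphism would map a maximal clique to one which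
is not maximal.  It follows that if uncountably many vertices have given colours to the members of a
finite set, then for some further vertex `z` two different colours to `z` can be added so that still
uncountably many vertices are left (otherwise an infinite monochromatic clique can be built
greedily).  Now fix a vertex `x` and build a binary tree of finite partial morphisms `f` such that
uncountably many vertices `v` satisfy `κ(v, f(d)) = κ(x, d)` for all `d` in the domain of `f`, so
that at each branching the two extensions force different colours between the image of `x` and some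
vertex `z`.  The union of a branch extends to an automorphism, and different branches give different
images of `x`.
-/

universe u v

namespace Pool.Agent.Results.MP_0b7070_lc.CountablePalette

open Cardinal

/-- A graph with edge-colouring on the vertex set `V` with colours in `C` (and the pseudocolour
`e`). -/
structure GEC (V : Type u) (C : Type v) where
  /-- the colouring -/
  κ : V → V → C
  /-- the pseudocolour -/
  e : C
  symm : ∀ x y, κ x y = κ y x
  diag : ∀ x y, κ x y = e ↔ x = y

namespace GEC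

variable {V : Type u} {C : Type v} (G : GEC V C)

/-- The palette: the set of colours of pairs of distinct vertices. -/
def palette : Set C := {c | ∃ x y, x ≠ y ∧ G.κ x y = c}

/-- A partial morphism: a map from a set `A` of vertices to `V` which preserves the colours. -/
def IsPartialMorphism (A : Set V) (f : A → V) : Prop :=
  ∀ x y : A, G.κ (f x) (f y) = G.κ x y

/-- Absolute homogeneity: every partial morphism extends to an automorphism. -/
def AbsolutelyHomogeneous : Prop :=
  ∀ (A : Set V) (f : A → V), G.IsPartialMorphism A f →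
    ∃ F : V ≃ V, (∀ x y, G.κ (F x) (F y) = G.κ x y) ∧ ∀ a : A, F a = f a

variable {G}

/-- Extension of partial morphisms given as relations. -/
theorem AbsolutelyHomogeneous.extend (hG : G.AbsolutelyHomogeneous) (R : Set (V × V))
    (hR : ∀ p ∈ R, ∀ q ∈ R, G.κ p.1 q.1 = G.κ p.2 q.2) :
    ∃ F : V ≃ V, (∀ x y, G.κ (F x) (F y) = G.κ x y) ∧ ∀ p ∈ R, F p.1 = p.2 := by
  classical
  have hex : ∀ a : {a | ∃ b, (a, b) ∈ R}, ∃ b, ((a : V), b) ∈ R := fun a => a.2
  choose f hf using hex
  obtain ⟨F, hF, hFf⟩ := hG {a | ∃ b, (a, b) ∈ R} f (fun x y => (hR _ (hf x) _ (hf y)).symm)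
  refine ⟨F, hF, fun p hp => ?_⟩
  have h1 := hFf ⟨p.1, p.2, hp⟩
  rw [show F p.1 = f ⟨p.1, p.2, hp⟩ from h1]
  have h2 := hR _ (hf ⟨p.1, p.2, hp⟩) _ hp
  exact (G.diag _ _).1 (h2 ▸ (G.diag _ _).2 rfl)

/-- There is no infinite monochromatic clique. -/
theorem no_infinite_clique (hG : G.AbsolutelyHomogeneous) (c : C) (q : ℕ → V)
    (hq : Function.Injective q) (hc : ∀ i j, i ≠ j → G.κ (q i) (q j) = c) : False := by
  classical
  -- a maximal clique
  let S : Set (Set V) := {Q | ∀ x ∈ Q, ∀ y ∈ Q, x ≠ y → G.κ x y = c}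
  obtain ⟨Q, hqQ, hQ⟩ := zorn_subset_nonempty S (by
    intro K hK hchain hne
    refine ⟨⋃₀ K, ?_, fun s hs => Set.subset_sUnion_of_mem hs⟩
    rintro x ⟨s, hs, hx⟩ y ⟨t, ht, hy⟩ hxy
    rcases hchain.total hs ht with h | h
    · exact hK ht x (h hx) y hy hxy
    · exact hK hs x hx y (h hy) hxy) (Set.range q) (by
      rintro _ ⟨i, rfl⟩ _ ⟨j, rfl⟩ hij
      exact hc i j (fun h => hij (by rw [h])))
  have hQmem : ∀ x ∈ Q, ∀ y ∈ Q, x ≠ y → G.κ x y = c := hQ.prop
  -- shift the sequence `q` inside `Q`
  let s : V → V := fun x => if h : ∃ i, q i = x then q (h.choose + 1) else x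
  have hs1 : ∀ i, s (q i) = q (i + 1) := by
    intro i
    have h : ∃ j, q j = q i := ⟨i, rfl⟩
    have h2 : h.choose = i := hq h.choose_spec
    simp only [s]
    rw [dif_pos h, h2]
  have hs2 : ∀ x, (¬ ∃ i, q i = x) → s x = x := by
    intro x hx
    simp only [s]
    rw [dif_neg hx]
  have hsQ : ∀ x ∈ Q, s x ∈ Q := by
    intro x hx
    by_cases h : ∃ i, q i = x
    · obtain ⟨i, rfl⟩ := h
      rw [hs1]
      exact hqQ ⟨_, rfl⟩
    · rw [hs2 x h]
      exact hx
  have hsinj : Function.Injective s := by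
    intro x y hxy
    by_cases hx : ∃ i, q i = x
    · obtain ⟨i, rfl⟩ := hx
      by_cases hy : ∃ i, q i = y
      · obtain ⟨j, rfl⟩ := hy
        rw [hs1, hs1] at hxy
        have := hq hxy
        rw [show i = j by omega]
      · rw [hs1, hs2 y hy] at hxy
        exact absurd ⟨_, hxy⟩ hy
    · by_cases hy : ∃ i, q i = y
      · obtain ⟨j, rfl⟩ := hy
        rw [hs1, hs2 x hx] at hxy
        exact absurd ⟨_, hxy.symm⟩ hx
      · rwa [hs2 x hx, hs2 y hy] at hxy
  have hs0 : ∀ x, s x ≠ q 0 := by
    intro x hx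
    by_cases h : ∃ i, q i = x
    · obtain ⟨i, rfl⟩ := h
      rw [hs1] at hx
      have := hq hx
      omega
    · rw [hs2 x h] at hx
      exact h ⟨0, hx.symm⟩
  obtain ⟨F, hF, hFs⟩ := hG Q (fun x => s x) (by
    intro x y
    change G.κ (s x) (s y) = G.κ x y
    by_cases hxy : (x : V) = y
    · rw [hxy, (G.diag _ _).2 rfl, (G.diag _ _).2 rfl]
    · rw [hQmem x x.2 y y.2 hxy]
      exact hQmem _ (hsQ x x.2) _ (hsQ y y.2) (fun h => hxy (hsinj h)))
  -- the preimage of `q 0` can be added to `Q`
  have h1 : insert (F.symm (q 0)) Q ∈ S := by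
    have h2 : ∀ y ∈ Q, G.κ (F.symm (q 0)) y = c := by
      intro y hy
      rw [← hF, F.apply_symm_apply, hFs ⟨y, hy⟩]
      exact hQmem _ (hqQ ⟨0, rfl⟩) _ (hsQ y hy) (fun h => hs0 y h.symm)
    intro x hx y hy hxy
    rcases hx with rfl | hx
    · rcases hy with rfl | hy
      · exact absurd rfl hxy
      · exact h2 y hy
    · rcases hy with rfl | hy
      · rw [G.symm]
        exact h2 x hx
      · exact hQmem x hx y hy hxy
  have h3 : F.symm (q 0) ∈ Q :=
    hQ.le_of_ge h1 (Set.subset_insert _ _) (Set.mem_insert _ _)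
  have h4 := hFs ⟨_, h3⟩
  simp only [F.apply_symm_apply] at h4
  exact hs0 _ h4.symm

/-- If uncountably many vertices are in `X` then, for some vertex `z`, there are two colours such
that uncountably many vertices of `X` have these colours to `z`. -/
theorem exists_split (hG : G.AbsolutelyHomogeneous) (hpal : G.palette.Countable) (X : Set V)
    (hX : ¬ X.Countable) :
    ∃ z c c', c ≠ c' ∧ ¬ {v ∈ X | G.κ v z = c}.Countable ∧ ¬ {v ∈ X | G.κ v z = c'}.Countable := by
  classical
  by_contra hcon
  push Not at hcon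
  have hpal' : (insert G.e G.palette).Countable := hpal.insert _
  have hmem : ∀ x y, G.κ x y ∈ insert G.e G.palette := by
    intro x y
    by_cases hxy : x = y
    · left
      exact (G.diag x y).2 hxy
    · right
      exact ⟨x, y, hxy, rfl⟩
  -- the popular colour of `z`
  have hpop : ∀ z, ∃ c, ¬ {v ∈ X | G.κ v z = c}.Countable := by
    intro z
    by_contra hall
    push Not at hall
    apply hX
    refine (hpal'.biUnion (fun c _ => hall c)).mono ?_
    intro v hv
    simp only [Set.mem_iUnion]
    exact ⟨G.κ v z, hmem v z, hv, rfl⟩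
  choose cc hcc using hpop
  have hco : ∀ z, {v ∈ X | G.κ v z ≠ cc z}.Countable := by
    intro z
    refine (hpal'.biUnion (t := fun c _ => {v ∈ X | G.κ v z = c ∧ c ≠ cc z})
      (fun c _ => ?_)).mono ?_
    · by_cases hc : c = cc z
      · refine Set.countable_empty.mono ?_
        rintro v ⟨-, -, h⟩
        exact h hc
      · refine (hcon z (cc z) c (fun h => hc h.symm) (hcc z)).mono ?_
        rintro v ⟨h1, h2, -⟩
        exact ⟨h1, h2⟩
    · rintro v ⟨hv, hvz⟩
      simp only [Set.mem_iUnion]
      exact ⟨G.κ v z, hmem v z, hv, rfl, hvz⟩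
  -- a colour which is popular for uncountably many vertices
  obtain ⟨c, hc⟩ : ∃ c, ¬ {z ∈ X | cc z = c}.Countable := by
    by_contra hall
    push Not at hall
    apply hX
    refine (hpal'.biUnion (fun c _ => hall c)).mono ?_
    intro z hz
    simp only [Set.mem_iUnion]
    have h1 : {v ∈ X | G.κ v z = cc z}.Nonempty := by
      by_contra hne
      rw [Set.not_nonempty_iff_eq_empty] at hne
      apply hcc z
      rw [hne]
      exact Set.countable_empty
    obtain ⟨v, hv⟩ := h1
    exact ⟨cc z, hv.2 ▸ hmem v z, hz, rfl⟩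
  -- a greedy clique
  have hstep : ∀ s : Finset V, (∀ z ∈ s, z ∈ X ∧ cc z = c) →
      ∃ v, (v ∈ X ∧ cc v = c) ∧ v ∉ s ∧ ∀ z ∈ s, G.κ v z = c := by
    intro s hs
    by_contra hno
    push Not at hno
    apply hc
    have h1 : ((s : Set V) ∪ ⋃ z ∈ s, {v ∈ X | G.κ v z ≠ cc z}).Countable := by
      refine s.countable_toSet.union ?_
      exact s.countable_toSet.biUnion (fun z _ => hco z)
    refine h1.mono ?_
    rintro v ⟨hv, hvc⟩
    by_cases hvs : v ∈ s
    · exact Or.inl hvs
    · right
      obtain ⟨z, hz, hvz⟩ := hno v ⟨hv, hvc⟩ hvs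
      simp only [Set.mem_iUnion]
      refine ⟨z, hz, hv, ?_⟩
      rw [(hs z hz).2]
      exact hvz
  have hVne : Nonempty V := by
    obtain ⟨v, -⟩ := hstep ∅ (by simp)
    exact ⟨v⟩
  choose! nxt hn1 hn2 hn3 using hstep
  let seq : ℕ → Finset V := fun n => Nat.rec ∅ (fun _ s => insert (nxt s) s) n
  have hseq0 : seq 0 = ∅ := rfl
  have hseqs : ∀ n, seq (n + 1) = insert (nxt (seq n)) (seq n) := fun n => rfl
  have hgood : ∀ n, ∀ z ∈ seq n, z ∈ X ∧ cc z = c := by
    intro n
    induction n with
    | zero => simp [hseq0]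
    | succ n ih =>
      intro z hz
      rw [hseqs, Finset.mem_insert] at hz
      rcases hz with rfl | hz
      · exact hn1 _ ih
      · exact ih z hz
  have hmono : Monotone seq := monotone_nat_of_le_succ (fun n => by
    rw [hseqs]
    exact Finset.subset_insert _ _)
  have hin : ∀ i j, i < j → nxt (seq i) ∈ seq j := by
    intro i j hij
    apply hmono (show i + 1 ≤ j from hij)
    rw [hseqs]
    exact Finset.mem_insert_self _ _
  have hne : ∀ i j, i < j → nxt (seq i) ≠ nxt (seq j) := by
    intro i j hij h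
    apply hn2 _ (hgood j)
    rw [← h]
    exact hin i j hij
  refine no_infinite_clique hG c (fun n => nxt (seq n)) ?_ ?_
  · intro i j hij
    rcases lt_trichotomy i j with h | h | h
    · exact absurd hij (hne i j h)
    · exact h
    · exact absurd hij.symm (hne j i h)
  · intro i j hij
    rcases lt_or_gt_of_ne hij with h | h
    · rw [G.symm]
      exact hn3 _ (hgood j) _ (hin i j h)
    · exact hn3 _ (hgood i) _ (hin j i h)

/-- The finite partial morphisms used in the tree. -/
def Good (x : V) (f : Finset (V × V)) : Prop :=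
  (∀ p ∈ f, ∀ q ∈ f, G.κ p.1 q.1 = G.κ p.2 q.2) ∧
  ¬ {v | ∀ p ∈ f, G.κ v p.2 = G.κ x p.1}.Countable

/-- The step of the tree construction. -/
theorem exists_step (hG : G.AbsolutelyHomogeneous) (hpal : G.palette.Countable) (x : V)
    (f : Finset (V × V)) (hf : Good (G := G) x f) :
    ∃ g : Bool → Finset (V × V), (∀ b, Good (G := G) x (g b) ∧ f ⊆ g b) ∧
      ∃ (z : V) (w : Bool → V), (∀ b, (w b, z) ∈ g b) ∧ G.κ x (w false) ≠ G.κ x (w true) := by
  classical
  obtain ⟨z, c, c', hcc', h1, h2⟩ := exists_split hG hpal _ hf.2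
  have key : ∀ c : C, ¬ {v ∈ {v | ∀ p ∈ f, G.κ v p.2 = G.κ x p.1} | G.κ v z = c}.Countable →
      ∃ (g : Finset (V × V)) (w : V), Good (G := G) x g ∧ f ⊆ g ∧ (w, z) ∈ g ∧ G.κ x w = c := by
    intro c hc
    have hne : {v ∈ {v | ∀ p ∈ f, G.κ v p.2 = G.κ x p.1} | G.κ v z = c}.Nonempty := by
      by_contra hne
      rw [Set.not_nonempty_iff_eq_empty] at hne
      apply hc
      rw [hne]
      exact Set.countable_empty
    obtain ⟨v, hv, hvz⟩ := hne
    have hv' : ∀ p ∈ f, G.κ v p.2 = G.κ x p.1 := hv
    -- extend `f ∪ {(x, v)}`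
    obtain ⟨F, hF, hFf⟩ := hG.extend (insert (x, v) (f : Set (V × V))) (by
      intro p hp q hq
      rcases hp with rfl | hp
      · rcases hq with rfl | hq
        · rw [(G.diag _ _).2 rfl, (G.diag _ _).2 rfl]
        · exact (hv' q hq).symm
      · rcases hq with rfl | hq
        · rw [G.symm, G.symm p.2]
          exact (hv' p hp).symm
        · exact hf.1 p hp q hq)
    have hFx : F x = v := hFf (x, v) (Set.mem_insert _ _)
    have hxw : G.κ x (F.symm z) = c := by
      rw [← hF, F.apply_symm_apply, hFx, hvz]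
    refine ⟨insert (F.symm z, z) f, F.symm z, ⟨?_, ?_⟩, Finset.subset_insert _ _,
      Finset.mem_insert_self _ _, hxw⟩
    · have hall : ∀ p ∈ insert (F.symm z, z) f, F p.1 = p.2 := by
        intro p hp
        rcases Finset.mem_insert.1 hp with rfl | hp
        · exact F.apply_symm_apply z
        · exact hFf p (Set.mem_insert_of_mem _ hp)
      intro p hp q hq
      rw [← hall p hp, ← hall q hq, hF]
    · intro hcount
      apply hc
      refine hcount.mono ?_
      rintro u ⟨hu, huz⟩ p hp
      rcases Finset.mem_insert.1 hp with rfl | hp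
      · change G.κ u z = G.κ x (F.symm z)
        rw [huz, hxw]
      · exact hu p hp
  obtain ⟨g0, w0, hg0, hf0, hw0, hx0⟩ := key c h1
  obtain ⟨g1, w1, hg1, hf1, hw1, hx1⟩ := key c' h2
  refine ⟨fun b => bif b then g1 else g0, ?_, z, fun b => bif b then w1 else w0, ?_, ?_⟩
  · intro b
    cases b
    · exact ⟨hg0, hf0⟩
    · exact ⟨hg1, hf1⟩
  · intro b
    cases b
    · exact hw0
    · exact hw1
  · simp only [cond_false, cond_true]
    rw [hx0, hx1]
    exact hcc'

/-- An absolutely homogeneous GEC with a countable palette and uncountably many vertices has at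
least continuum many vertices. -/
theorem exists_injection (hG : G.AbsolutelyHomogeneous) (hpal : G.palette.Countable)
    (hV : ¬ (Set.univ : Set V).Countable) :
    ∃ h : (ℕ → Bool) → V, Function.Injective h := by
  classical
  have hne : Nonempty V := by
    by_contra hne
    rw [not_nonempty_iff] at hne
    apply hV
    exact Set.countable_univ
  obtain ⟨x⟩ := hne
  have hstep := fun f : {f // Good (G := G) x f} => exists_step hG hpal x f.1 f.2
  choose g hg z w hw hxw using hstep
  let T : (ℕ → Bool) → ℕ → {f // Good (G := G) x f} := fun b n =>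
    Nat.rec ⟨∅, by intro p hp; simp at hp, by simpa using hV⟩
      (fun n f => ⟨g f (b n), (hg f (b n)).1⟩) n
  have hT0 : ∀ b b', T b 0 = T b' 0 := fun b b' => rfl
  have hTs : ∀ b n, T b (n + 1) = ⟨g (T b n) (b n), (hg (T b n) (b n)).1⟩ := fun b n => rfl
  have hmono : ∀ b, Monotone (fun n => (T b n).1) := by
    intro b
    apply monotone_nat_of_le_succ
    intro n
    simp only [hTs]
    exact (hg _ _).2
  have hext : ∀ b, ∃ F : V ≃ V, (∀ x y, G.κ (F x) (F y) = G.κ x y) ∧
      ∀ n, ∀ p ∈ (T b n).1, F p.1 = p.2 := by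
    intro b
    obtain ⟨F, hF, hF2⟩ := hG.extend {p | ∃ n, p ∈ (T b n).1} (by
      rintro p ⟨n, hp⟩ q ⟨m, hq⟩
      exact (T b (max n m)).2.1 p (hmono b (le_max_left n m) hp) q
        (hmono b (le_max_right n m) hq))
    exact ⟨F, hF, fun n p hp => hF2 p ⟨n, hp⟩⟩
  choose F hF hF2 using hext
  have hsame : ∀ b b' n, (∀ m < n, b m = b' m) → T b n = T b' n := by
    intro b b' n
    induction n with
    | zero => intro _; exact hT0 b b'
    | succ n ih =>
      intro h
      have h1 := ih (fun m hm => h m (by omega))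
      rw [hTs, hTs]
      simp only [h1, h n (by omega)]
  refine ⟨fun b => F b x, ?_⟩
  intro b b' hbb
  by_contra hne
  have hex : ∃ n, b n ≠ b' n := by
    by_contra hall
    push Not at hall
    exact hne (funext hall)
  have hn := Nat.find_spec hex
  set n := Nat.find hex with hndef
  have hlt : ∀ m < n, b m = b' m := by
    intro m hm
    have := Nat.find_min hex hm
    simpa using this
  have hTn := hsame b b' n hlt
  have hcol : ∀ b : ℕ → Bool, G.κ (F b x) (z (T b n)) = G.κ x (w (T b n) (b n)) := by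
    intro b
    have h1 : F b (w (T b n) (b n)) = z (T b n) :=
      hF2 b (n + 1) (w (T b n) (b n), z (T b n)) (by
        rw [hTs]
        exact hw (T b n) (b n))
    rw [← h1, hF]
  have h1 := hcol b
  have h2 := hcol b'
  simp only at hbb
  rw [hbb, hTn] at h1
  rw [h1] at h2
  have h3 := hxw (T b' n)
  cases hb : b n <;> cases hb' : b' n
  · exact hn (by rw [hb, hb'])
  · rw [hb, hb'] at h2
    exact h3 h2
  · rw [hb, hb'] at h2
    exact h3 h2.symm
  · exact hn (by rw [hb, hb'])

/-- The dichotomy. -/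
theorem dichotomy (hG : G.AbsolutelyHomogeneous) (hpal : #G.palette ≤ ℵ₀) :
    #V ≤ ℵ₀ ∨ 2 ^ ℵ₀ ≤ #V := by
  by_cases hV : #V ≤ ℵ₀
  · exact Or.inl hV
  · right
    obtain ⟨h, hh⟩ := exists_injection hG (Cardinal.le_aleph0_iff_set_countable.1 hpal)
      (by rwa [Set.countable_univ_iff, ← Cardinal.mk_le_aleph0_iff])
    have h2 : #(ULift.{u} (ℕ → Bool)) ≤ #V :=
      Cardinal.mk_le_of_injective (f := fun b : ULift.{u} (ℕ → Bool) => h b.down)
        (fun a b hab => ULift.down_injective (hh hab))
    simpa using h2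

end GEC

/-- The statement in the question: for all infinite cardinals `α < β < 2^α` there is an absolutely
homogeneous GEC whose palette has cardinality `α` and whose vertex set has cardinality `β`. -/
def Statement : Prop :=
  ∀ α β : Cardinal.{u}, ℵ₀ ≤ α → α < β → β < 2 ^ α →
    ∃ (V C : Type u) (G : GEC V C), G.AbsolutelyHomogeneous ∧ #G.palette = α ∧ #V = β

/-- (1) An absolutely homogeneous GEC with a countable palette has at most `ℵ₀` or at least `2^ℵ₀`
vertices.  (2) Hence the statement in the question fails whenever the continuum hypothesis fails;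
then it fails for `α = ℵ₀` and every `β` strictly between `ℵ₀` and `2^ℵ₀`. -/
theorem result :
    (∀ (V : Type u) (C : Type v) (G : GEC V C), G.AbsolutelyHomogeneous → #G.palette ≤ ℵ₀ →
      #V ≤ ℵ₀ ∨ 2 ^ ℵ₀ ≤ #V) ∧
    (∀ β : Cardinal.{u}, ℵ₀ < β → β < 2 ^ ℵ₀ →
      ¬ ∃ (V C : Type u) (G : GEC V C), G.AbsolutelyHomogeneous ∧ #G.palette = ℵ₀ ∧ #V = β) ∧
    ((2 : Cardinal.{u}) ^ ℵ₀ ≠ ℵ₁ → ¬ Statement.{u}) := by
  have h2 : ∀ β : Cardinal.{u}, ℵ₀ < β → β < 2 ^ ℵ₀ →
      ¬ ∃ (V C : Type u) (G : GEC V C), G.AbsolutelyHomogeneous ∧ #G.palette = ℵ₀ ∧ #V = β := by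
    rintro β hβ1 hβ2 ⟨V, C, G, hG, hpal, hV⟩
    have h3 := GEC.dichotomy hG hpal.le
    rw [hV] at h3
    rcases h3 with h3 | h3
    · exact absurd hβ1 (not_lt.2 h3)
    · exact absurd hβ2 (not_lt.2 h3)
  refine ⟨fun V C G hG hpal => GEC.dichotomy hG hpal, h2, ?_⟩
  intro hCH hS
  have h3 : (ℵ₁ : Cardinal.{u}) < 2 ^ ℵ₀ := by
    refine lt_of_le_of_ne ?_ (Ne.symm hCH)
    rw [← Cardinal.succ_aleph0]
    exact Order.succ_le_of_lt (Cardinal.cantor _)
  have h4 : (ℵ₀ : Cardinal.{u}) < ℵ₁ := Cardinal.aleph0_lt_aleph_one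
  exact h2 _ h4 h3 (hS ℵ₀ ℵ₁ le_rfl h4 h3)

end Pool.Agent.Results.MP_0b7070_lc.CountablePalette
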